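import Mathlib
import Pool.Agent.H24.SubdirMain

set_option autoImplicit false
open FirstOrder FirstOrder.Language
open Pool.Agent.H24.Subdir

namespace Pool.Agent.Results.MP_c671ed_lc.NotAxiomatizable

theorem result :
    (¬ ∃ T : FirstOrder.Language.ring.Theory, ∀ (R : Type) [Ring R],
      @Theory.Model _ R (FirstOrder.Ring.compatibleRingOfRing R).toStructure T ↔ SubdirU R) ∧
    (¬ ∃ T : rngLang.Theory, ∀ (R : Type) [NonUnitalRing R],
      @Theory.Model _ R (rngStr R) T ↔ SubdirN R) :=
  ⟨unital, nonunital⟩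

end Pool.Agent.Results.MP_c671ed_lc.NotAxiomatizable
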